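import Pool.Agent.ETC.Char

/-!
A Fourier argument on a finite vector space over `ZMod 2` (step (4) of note 2680, helper38).
-/

set_option autoImplicit false
set_option linter.unusedSectionVars false

namespace Pool.Agent.ETPG

open ETC

variable {W : Type} [AddCommGroup W] [Module (ZMod 2) W]

/-- the transform of `F` -/
def ft [Fintype W] (F : W → ℤ) (b : D W) : ℤ := ∑ u, F u * sg (b u)

theorem sg_sq (a : ZMod 2) : sg a * sg a = 1 := by revert a; decide

theorem sg_le (a : ZMod 2) : sg a ≤ 1 := by revert a; decide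

theorem ft_shift [Fintype W] (F : W → ℤ) (b : D W) (s : W) :
    ∑ u, F (u + s) * sg (b u) = sg (b s) * ft F b := by
  unfold ft
  rw [← Equiv.sum_comp (Equiv.addRight s) (fun u => F u * sg (b u)), Finset.mul_sum]
  refine Finset.sum_congr rfl fun u _ => ?_
  simp only [Equiv.coe_addRight]
  rw [map_add, sg_add]
  calc F (u + s) * sg (b u) = (sg (b s) * sg (b s)) * (F (u + s) * sg (b u)) := by
        rw [sg_sq, one_mul]
    _ = _ := by ring

/-- inversion -/
theorem ft_inv [Fintype W] (F : W → ℤ) (u : W) :
    ∑ b : D W, ft F b * sg (b u) = Fintype.card W * F u := by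
  unfold ft
  calc ∑ b : D W, (∑ v, F v * sg (b v)) * sg (b u)
      = ∑ v, F v * ∑ b : D W, sg (b (v + u)) := by
        simp only [Finset.sum_mul, Finset.mul_sum]
        rw [Finset.sum_comm]
        refine Finset.sum_congr rfl fun v _ => Finset.sum_congr rfl fun b _ => ?_
        rw [map_add, sg_add]; ring
    _ = ∑ v, F v * ((Fintype.card W : ℤ) * ind (v + u = 0)) := by
        simp only [sum_sg_dual]
    _ = _ := by
        rw [Finset.sum_eq_single u]
        · rw [ind_true (ZModModule.add_self u)]; ring
        · intro v _ hv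
          rw [ind_false fun h => hv (eq_of_add_eq_zero h)]; ring
        · intro h; exact absurd (Finset.mem_univ _) h

/-- the transform of a product with a translate -/
theorem ft_mul [Fintype W] (F : W → ℤ) (s : W) (θ : D W) :
    Fintype.card W * ∑ u, F u * F (u + s) * sg (θ u) =
      ∑ b : D W, ft F b * ft F (b + θ) * sg ((b + θ) s) := by
  calc Fintype.card W * ∑ u, F u * F (u + s) * sg (θ u)
      = ∑ u, (Fintype.card W * F u) * (F (u + s) * sg (θ u)) := by
        rw [Finset.mul_sum]
        refine Finset.sum_congr rfl fun u _ => ?_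
        ring
    _ = ∑ u, ∑ b : D W, ft F b * (F (u + s) * sg ((b + θ) u)) := by
        refine Finset.sum_congr rfl fun u _ => ?_
        rw [← ft_inv, Finset.sum_mul]
        refine Finset.sum_congr rfl fun b _ => ?_
        rw [LinearMap.add_apply, sg_add]; ring
    _ = ∑ b : D W, ft F b * ∑ u, F (u + s) * sg ((b + θ) u) := by
        rw [Finset.sum_comm]
        refine Finset.sum_congr rfl fun b _ => ?_
        rw [Finset.mul_sum]
    _ = _ := by
        refine Finset.sum_congr rfl fun b _ => ?_
        rw [ft_shift]; ring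

/-- the sum of `A θ s * sg (χ s)` over the `s` with `α s = 1`, twice -/
theorem ft_sum [Fintype W] (F : W → ℤ) (α θ χ : D W) :
    ∑ s, (1 - sg (α s)) * (∑ b : D W, ft F b * ft F (b + θ) * sg ((b + θ) s)) * sg (χ s) =
      Fintype.card W * (ft F (χ + θ) * ft F χ - ft F (χ + θ + α) * ft F (χ + α)) := by
  have key : ∀ ψ : D W, ∑ b : D W, ft F b * ft F (b + θ) *
      ((Fintype.card W : ℤ) * ind (b + θ + ψ = 0)) =
      Fintype.card W * (ft F (ψ + θ) * ft F ψ) := by
    intro ψ
    rw [Finset.sum_eq_single (ψ + θ)]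
    · rw [ind_true (by rw [add_assoc ψ, ZModModule.add_self, add_zero, ZModModule.add_self]),
        add_assoc ψ, ZModModule.add_self, add_zero]
      ring
    · intro b _ hb
      rw [ind_false fun h => hb ?_]
      · ring
      · have := eq_of_add_eq_zero h
        rw [← this, add_assoc, ZModModule.add_self, add_zero]
    · intro h; exact absurd (Finset.mem_univ _) h
  calc ∑ s, (1 - sg (α s)) * (∑ b : D W, ft F b * ft F (b + θ) * sg ((b + θ) s)) * sg (χ s)
      = ∑ b : D W, ft F b * ft F (b + θ) * (∑ s, sg ((b + θ + χ) s)) -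
        ∑ b : D W, ft F b * ft F (b + θ) * (∑ s, sg ((b + θ + (χ + α)) s)) := by
        simp only [Finset.mul_sum, Finset.sum_mul]
        rw [Finset.sum_comm, ← Finset.sum_sub_distrib]
        refine Finset.sum_congr rfl fun b _ => ?_
        rw [← Finset.sum_sub_distrib]
        refine Finset.sum_congr rfl fun s _ => ?_
        simp only [LinearMap.add_apply, sg_add]
        ring
    _ = _ := by
        simp only [sum_sg]
        rw [key χ, key (χ + α)]
        have : χ + α + θ = χ + θ + α := by abel
        rw [this]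
        ring

/-- **the Fourier step of THEOREM G**: `F` has a nonnegative transform, `F u * F (u + s)` has a
nonnegative transform for every `s` with `α s = 1`, and the sums of `F` and of `F ^ 2` over
`α = 0` and `α = 1` agree: then `F` takes the value `F 0` on `α = 1`. -/
theorem exists_eq [Finite W] {F : W → ℤ} {α : D W} (h0 : 0 < F 0)
    (h1 : ∀ [Fintype W] (b : D W), 0 ≤ ∑ u, F u * sg (b u))
    (h2 : ∀ [Fintype W] (s : W) (θ : D W), α s = 1 → 0 ≤ ∑ u, F u * F (u + s) * sg (θ u))
    (h3 : ∀ [Fintype W], ∑ u, F u * sg (α u) = 0)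
    (h4 : ∀ [Fintype W], ∑ u, F u * F u * sg (α u) = 0) : ∃ u, α u = 1 ∧ F u = F 0 := by
  have := Fintype.ofFinite W
  have cp : (0 : ℤ) < Fintype.card W := card_pos'
  have p0 : ∀ b, 0 ≤ ft F b := fun b => h1 b
  have pα : ft F α = 0 := h3
  -- (iv)
  have p2 : ∀ b, ft F b * ft F (b + α) = 0 := by
    have e := ft_mul F 0 α
    simp only [add_zero, map_zero, sg_zero, mul_one] at e
    rw [h4, mul_zero] at e
    intro b
    exact (Finset.sum_eq_zero_iff_of_nonneg fun b _ => mul_nonneg (p0 b) (p0 _)).1 e.symm b
      (Finset.mem_univ _)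
  -- the inequality
  have hA : ∀ (s : W) (θ : D W), 0 ≤ (1 - sg (α s)) *
      ∑ b : D W, ft F b * ft F (b + θ) * sg ((b + θ) s) := by
    intro s θ
    rcases zm (α s) with h | h
    · rw [h, sg_zero, sub_self, zero_mul]
    · rw [← ft_mul]
      apply mul_nonneg
      · rw [h]; decide
      · exact mul_nonneg cp.le (h2 s θ h)
  have ineq : ∀ χ θ : D W, ft F (χ + θ) * ft F χ - ft F (χ + θ + α) * ft F (χ + α) ≤
      ft F θ * ft F 0 := by
    intro χ θ
    have e1 := ft_sum F α θ χ
    have e2 := ft_sum F α θ 0
    simp only [LinearMap.zero_apply, sg_zero, mul_one, zero_add, pα, mul_zero, sub_zero] at e2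
    have h5 : ∑ s, (1 - sg (α s)) * (∑ b : D W, ft F b * ft F (b + θ) * sg ((b + θ) s)) *
        sg (χ s) ≤ ∑ s, (1 - sg (α s)) *
          (∑ b : D W, ft F b * ft F (b + θ) * sg ((b + θ) s)) := by
      refine Finset.sum_le_sum fun s _ => ?_
      have := mul_le_mul_of_nonneg_left (sg_le (χ s)) (hA s θ)
      rwa [mul_one] at this
    rw [e1, e2] at h5
    exact le_of_mul_le_mul_left h5 cp
  -- the support is a subgroup
  have hadd : ∀ b b', ft F b ≠ 0 → ft F b' ≠ 0 → ft F (b + b') ≠ 0 := by
    intro b b' hb hb' h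
    have e := ineq b (b + b')
    rw [← add_assoc, ZModModule.add_self, zero_add, h, zero_mul] at e
    have e2 : ft F (b + α) = 0 := (mul_eq_zero.1 (p2 b)).resolve_left hb
    rw [e2, mul_zero, sub_zero] at e
    have := mul_pos (lt_of_le_of_ne (p0 b') (Ne.symm hb')) (lt_of_le_of_ne (p0 b) (Ne.symm hb))
    omega
  have hinv := ft_inv F 0
  simp only [map_zero, sg_zero, mul_one] at hinv
  obtain ⟨b1, hb1⟩ : ∃ b, ft F b ≠ 0 := by
    by_contra hcon
    push Not at hcon
    rw [Finset.sum_eq_zero fun b _ => hcon b] at hinv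
    have := mul_pos cp h0
    omega
  let G : Submodule (ZMod 2) (D W) :=
    { carrier := {b | ft F b ≠ 0}
      add_mem' := fun {b b'} hb hb' => hadd b b' hb hb'
      zero_mem' := by
        have := hadd b1 b1 hb1 hb1
        rwa [ZModModule.add_self] at this
      smul_mem' := by
        rintro a χ h
        rcases zm a with rfl | rfl
        · rw [zero_smul]
          have := hadd b1 b1 hb1 hb1
          rwa [ZModModule.add_self] at this
        · rwa [one_smul] }
  have hα : α ∉ G := fun h => h pα
  obtain ⟨f, hf1, hf2⟩ := exists_dual_sep hα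
  obtain ⟨u, rfl⟩ := (Module.evalEquiv (ZMod 2) W).surjective f
  refine ⟨u, by simpa using hf1, ?_⟩
  have e1 := ft_inv F u
  have e2 : ∑ b : D W, ft F b * sg (b u) = ∑ b : D W, ft F b := by
    refine Finset.sum_congr rfl fun b _ => ?_
    by_cases h : ft F b = 0
    · rw [h, zero_mul]
    · have h5 := hf2 b h
      rw [Module.evalEquiv_apply, Module.Dual.eval_apply] at h5
      rw [h5, sg_zero, mul_one]
  rw [e2, hinv] at e1
  exact (mul_left_cancel₀ cp.ne' e1).symm

/-- the sum of the signs over a subspace given by a predicate -/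
theorem pd_ind [Fintype W] (P : W → Prop) (hP : ∀ u v, P u → P v → P (u + v)) (b : D W) :
    0 ≤ ∑ u, ind (P u) * sg (b u) := by
  by_cases h : ∀ u, P u → b u = 0
  · refine Finset.sum_nonneg fun u _ => ?_
    by_cases hu : P u
    · rw [ind_true hu, h u hu, sg_zero]; decide
    · rw [ind_false hu, zero_mul]
  · push Not at h
    obtain ⟨v, hv, hb⟩ := h
    have hb' := (zm (b v)).resolve_left hb
    have h1 : ∑ u, ind (P u) * sg (b u) = ∑ u, ind (P (u + v)) * sg (b (u + v)) :=
      (Equiv.sum_comp (Equiv.addRight v) (fun u => ind (P u) * sg (b u))).symm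
    have h2 : ∑ u, ind (P (u + v)) * sg (b (u + v)) = - ∑ u, ind (P u) * sg (b u) := by
      rw [← Finset.sum_neg_distrib]
      refine Finset.sum_congr rfl fun u _ => ?_
      have : P (u + v) ↔ P u := by
        constructor
        · intro h3
          have := hP _ _ h3 hv
          rwa [add_assoc, ZModModule.add_self, add_zero] at this
        · intro h3; exact hP _ _ h3 hv
      rw [ind_congr this, map_add, sg_add, hb', sg_one]; ring
    omega

end Pool.Agent.ETPG
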