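import Pool.Agent.ETPG.G3

/-!
**THEOREM G** (note 2680, helper38): one symbol `c ∈ Q_x - 0`, `x` of minimal rank, whose
commuting slots differ by elements of the stabilizer of `S_c`, refutes a structure with `K4At`.
-/

set_option autoImplicit false
set_option linter.unusedSimpArgs false
set_option linter.unnecessarySeqFocus false
set_option linter.unusedSectionVars false

namespace Pool.Agent.ETPG

open Pool.Agent.Helper58.PLine (QData)
open Pool.Agent.ETCP
open Pool.Agent.ETPF

variable {V Q : Type} [AddCommGroup V] [Module (ZMod 2) V] {D : QData V Q}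

theorem TG.ne_zero {c : Q} (X : TG D c) {s : V} (hs : Sg D c s) : s ≠ 0 := by
  rintro rfl
  obtain ⟨r, hr⟩ := hs
  exact X.cne (hr.symm.trans (C.zero' r))

/-- for `x` with a largest centralizer all `V_w`, `w ∈ S_c ∩ V_x`, are inside `V_x` -/
theorem TG.sub [Finite V] {c : Q} (X : TG D c) {x w t : V} (hx : Sg D c x)
    (mr : ∀ v, v ≠ 0 → Nat.card (D.ann v) ≤ Nat.card (D.ann x)) (hw : Sg D c w) (hxw : C D x w)
    (ht : C D w t) : C D x t := by
  obtain ⟨x0, h1, h2⟩ := X.exists_base hx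
  have h3 : x0 ≠ 0 := X.ne_zero (TG.a2 hx h1)
  have h4 : D.ann x ≤ D.ann x0 := fun h hh => h2 h (X.ann_sub' hx hh)
  have h5 : D.ann x = D.ann x0 := by
    apply SetLike.coe_injective
    apply Set.eq_of_subset_of_ncard_le h4 _ (Set.toFinite _)
    have := mr x0 h3
    rwa [← Nat.card_coe_set_eq, ← Nat.card_coe_set_eq]
  have h6 : w + x ∈ Gm D c := by
    rw [add_comm]
    exact X.st _ _ hx hw hxw
  have h7 : t ∈ D.ann x0 := h2 t (X.ann_sub hx h6 ht)
  rw [← h5] at h7
  exact h7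

/-- **(ST_c) at one symbol `c = q (x, u) ≠ 0`, `x` of minimal rank, refutes a structure with
`K4At`**, in every world. -/
theorem false_of_one_ST [Finite V] (he : D.e = 0) {x u : V} (hu : ¬ C D x u)
    (mr : ∀ v, v ≠ 0 → Nat.card (D.ann v) ≤ Nat.card (D.ann x)) (k4 : ETCD2.K4At D x)
    (st : ∀ s s', Sg D (D.q x u) s → Sg D (D.q x u) s' → C D s s' →
      ∀ r, Sg D (D.q x u) r → Sg D (D.q x u) (r + (s + s'))) : False := by
  have X : TG D (D.q x u) := ⟨he, hu, fun s s' h1 h2 h3 r hr => st s s' h1 h2 h3 r hr⟩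
  obtain ⟨l, v, t, h1, h2, h3, h4, h5⟩ := ETCR2.no_d2c he mr k4 hu
  have hv : D.q x v = D.q x u := (q_eq h2).symm
  have hw : Sg D (D.q x u) (x + l) := ⟨v, by
    rw [← hv]
    exact q_eq' (h3.of_eq (eo (by
      abel_nf <;> simp only [ch2, ch3, ch4, add_zero, zero_add])) rfl)⟩
  exact h5 (X.sub ⟨u, rfl⟩ mr hw ((C.self he x).add h1) h4)

end Pool.Agent.ETPG
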