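import Pool.Agent.ETPF.ST
import Pool.Agent.ETPG.Four

/-!
THEOREM G (note 2680, helper38), step (1): the set `S_c ∩ (S_c + x)` of a symbol `c` with (ST_c).
-/

set_option autoImplicit false
set_option linter.unusedSimpArgs false
set_option linter.unnecessarySeqFocus false
set_option linter.unusedSectionVars false

namespace Pool.Agent.ETPG

open Pool.Agent.Helper58.PLine (QData)
open Pool.Agent.ETCP
open Pool.Agent.ETPF

variable {V Q : Type} [AddCommGroup V] [Module (ZMod 2) V] {D : QData V Q}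

/-- a subset closed under addition and containing `0` -/
def mkS (P : V → Prop) (h0 : P 0) (ha : ∀ a b, P a → P b → P (a + b)) :
    Submodule (ZMod 2) V where
  carrier := {v | P v}
  zero_mem' := h0
  add_mem' := fun {a b} => ha a b
  smul_mem' := by
    intro r a h
    rcases Pool.Agent.Helper58.PLine.zm r with rfl | rfl
    · rw [zero_smul]; exact h0
    · rw [one_smul]; exact h

variable (D) in
/-- the stabilizer of `S_c` -/
def Gm (c : Q) : Submodule (ZMod 2) V :=
  mkS (fun g => ∀ s, Sg D c s → Sg D c (s + g)) (fun s h => by rwa [add_zero])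
    fun a b h h' s hs => by rw [← add_assoc]; exact h' _ (h _ hs)

theorem mem_Gm {c : Q} {g : V} : g ∈ Gm D c ↔ ∀ s, Sg D c s → Sg D c (s + g) := Iff.rfl

variable (D) in
/-- `S_c ∩ (S_c + x)` -/
def Sx (c : Q) (x u : V) : Prop := Sg D c u ∧ Sg D c (u + x)

variable (D) in
/-- the stabilizer of `S_c ∩ (S_c + x)` -/
def Gx (c : Q) (x : V) : Submodule (ZMod 2) V :=
  mkS (fun g => ∀ s, Sx D c x s → Sx D c x (s + g)) (fun s h => by rwa [add_zero])
    fun a b h h' s hs => by rw [← add_assoc]; exact h' _ (h _ hs)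

theorem mem_Gx {c : Q} {x g : V} : g ∈ Gx D c x ↔ ∀ s, Sx D c x s → Sx D c x (s + g) := Iff.rfl

/-- the hypotheses: `-1 = 1`, `c ≠ 0`, and (ST_c) -/
structure TG (D : QData V Q) (c : Q) : Prop where
  he : D.e = 0
  cne : c ≠ D.z
  st : ∀ s s', Sg D c s → Sg D c s' → C D s s' → s + s' ∈ Gm D c

namespace TG

variable {c : Q} (X : TG D c)

include X

theorem a1 {x u : V} (hx : Sg D c x) (hu : Sx D c x u) :
    ∃ w, w + x ∈ Gm D c ∧ D.q u w = c ∧ C D x w := by
  obtain ⟨r, h1, h2⟩ := (sg_add hu.1).1 hu.2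
  refine ⟨r, ?_, h2, h1⟩
  rw [add_comm]
  exact X.st _ _ hx (Sg.right h2) h1

omit X in
theorem a2 {x w : V} (hx : Sg D c x) (hw : w + x ∈ Gm D c) : Sg D c w := by
  have h := hw x hx
  rwa [show x + (w + x) = w from eo (by
    abel_nf <;> simp only [ch2, ch3, ch4, add_zero, zero_add])] at h

omit X in
theorem gm_symm {x w : V} (hw : w + x ∈ Gm D c) : x + w ∈ Gm D c := by rwa [add_comm]

omit X in
theorem gm_add {x w v : V} (hw : w + x ∈ Gm D c) (hv : v + x ∈ Gm D c) : w + v ∈ Gm D c := by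
  have h := (Gm D c).add_mem hw hv
  rwa [show w + x + (v + x) = w + v from eo (by
    abel_nf <;> simp only [ch2, ch3, ch4, add_zero, zero_add])] at h

omit X in
theorem sl_gm {s g : V} (hs : Sg D c s) (hg : g ∈ Gm D c) : Sg D c (s + g) := hg s hs

omit X in
theorem sl_of {s s' : V} (hs : Sg D c s) (hg : s + s' ∈ Gm D c) : Sg D c s' := by
  have h := hg s hs
  rwa [show s + (s + s') = s' from eo (by
    abel_nf <;> simp only [ch2, ch3, ch4, add_zero, zero_add])] at h

/-- elements of `N_x` are in `S ∩ (S + x)` -/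
theorem sx_of {x y : V} (h : D.q x y = c) : Sx D c x y := by
  refine ⟨Sg.right h, x, ?_⟩
  have h1 : D.q (y + x) x = D.q y x := q_eq' ((C.self X.he x).of_eq (eo (by
    abel_nf <;> simp only [ch2, ch3, ch4, add_zero, zero_add])) rfl)
  rw [h1, D.symm, h]

/-- elements of `N_w`, `w ∈ x + Stab`, are in `S ∩ (S + x)` -/
theorem sx_of' {x w y : V} (hw : w + x ∈ Gm D c) (h : D.q w y = c) : Sx D c x y := by
  obtain ⟨h1, h2⟩ := X.sx_of h
  refine ⟨h1, ?_⟩
  have h3 := hw _ h2
  rwa [show y + w + (w + x) = y + x from eo (by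
    abel_nf <;> simp only [ch2, ch3, ch4, add_zero, zero_add])] at h3

/-- `u + V_w ⊆ S` for `u` in `S ∩ (S + x)` and `w ∈ x + Stab` -/
theorem a3 [Finite V] {x u w : V} (hx : Sg D c x) (hu : Sx D c x u) (hw : w + x ∈ Gm D c) :
    ∀ v, C D w v → Sg D c (u + v) := by
  obtain ⟨w1, h1, h2, -⟩ := X.a1 hx hu
  have h3 : Fm D c u w := by
    intro k hk
    have h4 : Sg D c (w1 + k) := Sg.right (qa h2 hk)
    have h5 := gm_add hw h1 _ h4
    rwa [show w1 + k + (w + w1) = w + k from eo (by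
      abel_nf <;> simp only [ch2, ch3, ch4, add_zero, zero_add])] at h5
  exact Fm.swap (a2 hx hw) hu.1 h3

theorem sx_add [Finite V] {x u w v : V} (hx : Sg D c x) (hu : Sx D c x u) (hw : w + x ∈ Gm D c)
    (hv : C D w v) : Sx D c x (u + v) := by
  refine ⟨X.a3 hx hu hw v hv, ?_⟩
  have h1 := X.a3 hx hu hw (v + w) (hv.add (C.self X.he w))
  have h2 := hw _ h1
  rwa [show u + (v + w) + (w + x) = u + v + x from eo (by
    abel_nf <;> simp only [ch2, ch3, ch4, add_zero, zero_add])] at h2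

omit X in
theorem gm_sub {x g : V} (hg : g ∈ Gm D c) : g ∈ Gx D c x := by
  intro u hu
  refine ⟨hg _ hu.1, ?_⟩
  have := hg _ hu.2
  rwa [show u + x + g = u + g + x from by abel] at this

theorem ann_sub [Finite V] {x w v : V} (hx : Sg D c x) (hw : w + x ∈ Gm D c) (hv : C D w v) :
    v ∈ Gx D c x := fun _ hu => X.sx_add hx hu hw hv

theorem ann_sub' [Finite V] {x v : V} (hx : Sg D c x) (hv : C D x v) : v ∈ Gx D c x :=
  X.ann_sub hx (by rw [ZModModule.add_self]; exact Submodule.zero_mem _) hv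

/-- `S ∩ (S + x) = y + G_x` for `y ∈ N_x` -/
theorem sx_iff [Finite V] {x y u : V} (hx : Sg D c x) (hy : D.q x y = c) :
    Sx D c x u ↔ u + y ∈ Gx D c x := by
  constructor
  · intro hu
    obtain ⟨w, h1, h2, -⟩ := X.a1 hx hu
    obtain ⟨r, h3, h4⟩ := (a2 hx h1).common hx
    have h5 : u + r ∈ Gx D c x := X.ann_sub hx h1 (q_eq_iff.1 (by rw [h3, D.symm, h2]))
    have h6 : r + y ∈ Gx D c x := X.ann_sub' hx (q_eq_iff.1 (by rw [h4, hy]))
    have h7 := (Gx D c x).add_mem h5 h6
    rwa [show u + r + (r + y) = u + y from eo (by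
      abel_nf <;> simp only [ch2, ch3, ch4, add_zero, zero_add])] at h7
  · intro hu
    have := hu y (X.sx_of hy)
    rwa [show y + (u + y) = u from eo (by
      abel_nf <;> simp only [ch2, ch3, ch4, add_zero, zero_add])] at this

/-- `S ∩ (S + x)` is a coset of `G_x` -/
theorem sx_iff' [Finite V] {x y u : V} (hx : Sg D c x) (hy : Sx D c x y) :
    Sx D c x u ↔ u + y ∈ Gx D c x := by
  obtain ⟨y0, h0⟩ := hx
  have hx : Sg D c x := ⟨y0, h0⟩
  constructor
  · intro hu
    have h1 := (Gx D c x).add_mem ((X.sx_iff hx h0).1 hu) ((X.sx_iff hx h0).1 hy)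
    rwa [show u + y0 + (y + y0) = u + y from eo (by
      abel_nf <;> simp only [ch2, ch3, ch4, add_zero, zero_add])] at h1
  · intro hu
    have := hu y hy
    rwa [show y + (u + y) = u from eo (by
      abel_nf <;> simp only [ch2, ch3, ch4, add_zero, zero_add])] at this

end TG

end Pool.Agent.ETPG
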