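import Pool.Agent.ETPG.G1

/-!
THEOREM G (note 2680, helper38), steps (2), (3): double counting.
-/

set_option autoImplicit false
set_option linter.unusedSimpArgs false
set_option linter.unnecessarySeqFocus false
set_option linter.unusedSectionVars false

namespace Pool.Agent.ETPG

open Pool.Agent.Helper58.PLine (QData)
open Pool.Agent.ETCP
open Pool.Agent.ETPF
open ETC (ind ind_true ind_false ind_and ind_congr ind_nonneg ind_le sum_ind_shift)

variable {V Q : Type} [AddCommGroup V] [Module (ZMod 2) V] {D : QData V Q}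

theorem sum_ind_pos {W : Type} [Fintype W] {P : W → Prop} {v : W} (h : P v) :
    0 < ∑ v, ind (P v) :=
  Finset.sum_pos' (fun _ _ => ind_nonneg _) ⟨v, Finset.mem_univ _, by rw [ind_true h]; decide⟩

theorem sum_ind_zero {W : Type} [Fintype W] {P : W → Prop} (h : ∀ v, ¬ P v) :
    ∑ v, ind (P v) = 0 :=
  Finset.sum_eq_zero fun v _ => ind_false (h v)

theorem exists_of_sum_pos {W : Type} [Fintype W] {P : W → Prop} (h : 0 < ∑ v, ind (P v)) :
    ∃ v, P v := by
  by_contra hcon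
  push Not at hcon
  rw [sum_ind_zero hcon] at h
  exact lt_irrefl _ h

/-- a set which is empty or a coset of `A` has at most `|A|` elements -/
theorem sum_ind_le [Fintype V] {P A : V → Prop} (h : ∀ v0, P v0 → ∀ v, P (v + v0) ↔ A v) :
    ∑ v, ind (P v) ≤ ∑ v, ind (A v) := by
  by_cases he : ∃ v, P v
  · obtain ⟨v0, h0⟩ := he
    exact (sum_ind_shift P A v0 (h v0 h0)).le
  · rw [sum_ind_zero fun v hv => he ⟨v, hv⟩]
    exact Finset.sum_nonneg fun _ _ => ind_nonneg _

theorem mem_shift {A : Submodule (ZMod 2) V} {v v0 x : V} (h : v0 + x ∈ A) :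
    v + v0 + x ∈ A ↔ v ∈ A := by
  rw [add_assoc]
  exact Submodule.add_mem_iff_left A h

theorem mem_shift' {A : Submodule (ZMod 2) V} {v v0 : V} (h : v0 ∈ A) :
    v + v0 ∈ A ↔ v ∈ A := Submodule.add_mem_iff_left A h

theorem C_shift {w v v0 : V} (h : C D w v0) : C D w (v + v0) ↔ C D w v :=
  ⟨fun h1 => (h1.add h).of_eq rfl (eo (by
    abel_nf <;> simp only [ch2, ch3, ch4, add_zero, zero_add])), fun h1 => h1.add h⟩

theorem C_shift' {w v v0 : V} (h : C D v0 w) : C D (v + v0) w ↔ C D v w :=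
  ⟨fun h1 => ((C_shift h.symm).1 h1.symm).symm, fun h1 => h1.add' h⟩

theorem q_shift {c : Q} {w v v0 : V} (h : D.q w v0 = c) : D.q w (v + v0) = c ↔ C D w v := by
  rw [← h, q_eq_iff]
  have e : v + v0 + v0 = v := eo (by abel_nf <;> simp only [ch2, ch3, ch4, add_zero, zero_add])
  rw [e]

theorem q_shift' {c : Q} {w v v0 : V} (h : D.q v0 w = c) : D.q (v + v0) w = c ↔ C D v w := by
  rw [D.symm, q_shift (by rw [D.symm]; exact h)]
  exact ⟨C.symm, C.symm⟩

variable (D) in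
/-- `|G_x ∩ V_w|` -/
noncomputable def cG [Fintype V] (c : Q) (x w : V) : ℤ := ∑ h, ind (h ∈ Gx D c x ∧ C D w h)

variable (D) in
/-- `|Stab ∩ V_w|` -/
noncomputable def cM [Fintype V] (c : Q) (w : V) : ℤ := ∑ g, ind (g ∈ Gm D c ∧ C D w g)

namespace TG

variable {c : Q} (X : TG D c)

include X

/-- `|N_w| = |V_w|` inside `S ∩ (S + x)`, `w ∈ x + Stab` -/
theorem b1 [Fintype V] {x w : V} (hx : Sg D c x) (hw : w + x ∈ Gm D c) :
    ∑ y, ind (Sx D c x y ∧ D.q w y = c) = cG D c x w := by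
  obtain ⟨y, hy⟩ := a2 hx hw
  refine sum_ind_shift _ _ y fun v => ?_
  have h1 : Sx D c x y := X.sx_of' hw hy
  rw [X.sx_iff' hx h1, q_shift hy]
  have e : v + y + y = v := eo (by abel_nf <;> simp only [ch2, ch3, ch4, add_zero, zero_add])
  rw [e]

/-- the neighbours of `y ∈ S ∩ (S + x)` in `x + Stab` -/
theorem b2 [Fintype V] {x y : V} (hx : Sg D c x) (hy : Sx D c x y) :
    ∑ w, ind (w + x ∈ Gm D c ∧ D.q w y = c) = cM D c y := by
  obtain ⟨w, h1, h2, -⟩ := X.a1 hx hy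
  refine sum_ind_shift _ _ w fun v => ?_
  rw [mem_shift h1, q_shift' (by rw [D.symm]; exact h2)]
  exact and_congr_right fun _ => ⟨C.symm, C.symm⟩

/-- `V_g` meets `N_x`, `g ∈ Stab` -/
theorem b3 {x g : V} (hx : Sg D c x) (hg : g ∈ Gm D c) : ∃ r, D.q x r = c ∧ C D g r := by
  obtain ⟨r, h1, h2⟩ := hx.common (sl_gm hx hg)
  refine ⟨r, h1, ?_⟩
  exact (q_eq'_iff.1 (h1.trans h2.symm)).of_eq (eo (by
    abel_nf <;> simp only [ch2, ch3, ch4, add_zero, zero_add])) rfl

theorem b4 [Fintype V] {x g : V} (hx : Sg D c x) (hg : g ∈ Gm D c) :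
    ∑ y, ind (Sx D c x y ∧ C D g y) = cG D c x g := by
  obtain ⟨r, h1, h2⟩ := X.b3 hx hg
  refine sum_ind_shift _ _ r fun v => ?_
  rw [X.sx_iff' hx (X.sx_of h1), C_shift h2]
  have e : v + r + r = v := eo (by abel_nf <;> simp only [ch2, ch3, ch4, add_zero, zero_add])
  rw [e]

/-- **(2)** `∑_{w ∈ x + Stab} |V_w| = ∑_{g ∈ Stab} |G_g|` -/
theorem e0 [Fintype V] {x : V} (hx : Sg D c x) :
    ∑ w, ind (w + x ∈ Gm D c) * cG D c x w = ∑ g, ind (g ∈ Gm D c) * cG D c x g := by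
  calc ∑ w, ind (w + x ∈ Gm D c) * cG D c x w
      = ∑ w, ∑ y, ind (w + x ∈ Gm D c) * ind (Sx D c x y ∧ D.q w y = c) := by
        refine Finset.sum_congr rfl fun w _ => ?_
        by_cases hw : w + x ∈ Gm D c
        · rw [← Finset.mul_sum, X.b1 hx hw]
        · simp only [ind_false hw, zero_mul, Finset.sum_const_zero]
    _ = ∑ y, ∑ w, ind (Sx D c x y) * ind (w + x ∈ Gm D c ∧ D.q w y = c) := by
        rw [Finset.sum_comm]
        refine Finset.sum_congr rfl fun y _ => Finset.sum_congr rfl fun w _ => ?_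
        simp only [ind_and]; ring
    _ = ∑ y, ∑ g, ind (Sx D c x y) * ind (g ∈ Gm D c ∧ C D y g) := by
        refine Finset.sum_congr rfl fun y _ => ?_
        by_cases hy : Sx D c x y
        · rw [← Finset.mul_sum, ← Finset.mul_sum, X.b2 hx hy, cM]
        · simp only [ind_false hy, zero_mul]
    _ = ∑ g, ∑ y, ind (g ∈ Gm D c) * ind (Sx D c x y ∧ C D g y) := by
        rw [Finset.sum_comm]
        refine Finset.sum_congr rfl fun g _ => Finset.sum_congr rfl fun y _ => ?_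
        simp only [ind_and]
        rw [ind_congr (show C D y g ↔ C D g y from ⟨C.symm, C.symm⟩)]; ring
    _ = _ := by
        refine Finset.sum_congr rfl fun g _ => ?_
        rw [← Finset.mul_sum]
        by_cases hg : g ∈ Gm D c
        · rw [X.b4 hx hg]
        · rw [ind_false hg, zero_mul, zero_mul]

omit X in
theorem cG_swap [Fintype V] (x : V) (P : V → Prop) :
    ∑ w, ind (P w) * cG D c x w = ∑ h, ind (h ∈ Gx D c x) * ∑ w, ind (P w ∧ C D w h) := by
  simp only [cG, Finset.mul_sum]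
  rw [Finset.sum_comm]
  refine Finset.sum_congr rfl fun h _ => Finset.sum_congr rfl fun w _ => ?_
  simp only [ind_and]; ring

/-- **(*)**: every `h ∈ G_x` commutes with some `w ∈ x + Stab` -/
theorem star [Fintype V] {x h : V} (hx : Sg D c x) (hh : h ∈ Gx D c x) :
    ∃ w, w + x ∈ Gm D c ∧ C D w h := by
  have e := X.e0 hx
  rw [cG_swap, cG_swap] at e
  have hle : ∀ h ∈ (Finset.univ : Finset V), ind (h ∈ Gx D c x) *
      ∑ w, ind (w + x ∈ Gm D c ∧ C D w h) ≤ ind (h ∈ Gx D c x) *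
      ∑ g, ind (g ∈ Gm D c ∧ C D g h) := by
    intro h _
    refine mul_le_mul_of_nonneg_left (sum_ind_le fun w0 hw0 v => ?_) (ind_nonneg _)
    rw [mem_shift hw0.1, C_shift' hw0.2]
  have e1 := (Finset.sum_eq_sum_iff_of_le hle).1 e h (Finset.mem_univ _)
  rw [ind_true hh, one_mul, one_mul] at e1
  have e2 : 0 < ∑ g, ind (g ∈ Gm D c ∧ C D g h) :=
    sum_ind_pos (v := (0 : V)) ⟨Submodule.zero_mem _, C.zero' h⟩
  rw [← e1] at e2
  exact exists_of_sum_pos e2

/-- slots in `y + Stab` commuting with `g ∈ Stab` -/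
theorem star' [Fintype V] {y g : V} (hy : Sg D c y) (hg : g ∈ Gm D c) :
    ∃ w, w + y ∈ Gm D c ∧ C D w g := X.star hy (gm_sub hg)

/-- for `y ∈ S ∩ (S + x)` every `s ∈ x + Stab` has a neighbour in `y + Stab` -/
theorem b5 {x y s : V} (hx : Sg D c x) (hy : Sx D c x y) (hs : s + x ∈ Gm D c) :
    ∃ a, a + y ∈ Gm D c ∧ D.q s a = c := by
  have h1 : Sx D c y s := by
    refine ⟨a2 hx hs, ?_⟩
    have h2 := hs _ hy.2
    rwa [show y + x + (s + x) = s + y from eo (by
      abel_nf <;> simp only [ch2, ch3, ch4, add_zero, zero_add])] at h2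
  obtain ⟨w, h2, h3, -⟩ := X.a1 hy.1 h1
  exact ⟨w, h2, h3⟩

theorem b6 [Fintype V] {x y s : V} (hx : Sg D c x) (hy : Sx D c x y) (hs : s + x ∈ Gm D c) :
    ∑ a, ind (a + y ∈ Gm D c ∧ D.q s a = c) = cM D c s := by
  obtain ⟨a, h1, h2⟩ := X.b5 hx hy hs
  refine sum_ind_shift _ _ a fun v => ?_
  rw [mem_shift h1, q_shift h2]

theorem b7 [Fintype V] {y g : V} (hy : Sg D c y) (hg : g ∈ Gm D c) :
    ∑ a, ind (a + y ∈ Gm D c ∧ C D g a) = cM D c g := by
  obtain ⟨a, h1, h2⟩ := X.star' hy hg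
  refine sum_ind_shift _ _ a fun v => ?_
  rw [mem_shift h1, C_shift h2.symm]

end TG

variable (D) in
/-- common neighbours of `a`, `b` in `x + Stab` -/
noncomputable def tT [Fintype V] (c : Q) (x a b : V) : ℤ :=
  ∑ s, ind (s + x ∈ Gm D c ∧ D.q s a = c ∧ D.q s b = c)

variable (D) in
/-- `|Stab ∩ V_a ∩ V_b|` -/
noncomputable def tB [Fintype V] (c : Q) (a b : V) : ℤ :=
  ∑ g, ind (g ∈ Gm D c ∧ C D g a ∧ C D g b)

theorem tT_eq [Fintype V] {c : Q} {x a b s : V} (h : s + x ∈ Gm D c) (ha : D.q s a = c)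
    (hb : D.q s b = c) : tT D c x a b = tB D c a b := by
  refine sum_ind_shift _ _ s fun v => ?_
  rw [mem_shift h, q_shift' ha, q_shift' hb]

theorem tT_le [Fintype V] (c : Q) (x a b : V) : tT D c x a b ≤ tB D c a b := by
  refine sum_ind_le fun s hs v => ?_
  rw [mem_shift hs.1, q_shift' hs.2.1, q_shift' hs.2.2]

theorem tB_pos [Fintype V] (c : Q) (a b : V) : 0 < tB D c a b :=
  sum_ind_pos (v := (0 : V)) ⟨Submodule.zero_mem _, C.zero' a, C.zero' b⟩

theorem tT_sum [Fintype V] (c : Q) (x : V) (P P' : V → Prop) :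
    ∑ a, ∑ b, ind (P a) * ind (P' b) * tT D c x a b =
      ∑ s, ind (s + x ∈ Gm D c) * ((∑ a, ind (P a ∧ D.q s a = c)) *
        ∑ b, ind (P' b ∧ D.q s b = c)) := by
  unfold tT
  simp only [Finset.mul_sum, Finset.sum_mul]
  rw [Finset.sum_congr rfl fun a _ => Finset.sum_comm, Finset.sum_comm]
  refine Finset.sum_congr rfl fun s _ => ?_
  rw [Finset.sum_comm]
  refine Finset.sum_congr rfl fun b _ => Finset.sum_congr rfl fun a _ => ?_
  simp only [ind_and]; ring

theorem tB_sum [Fintype V] (c : Q) (P P' : V → Prop) :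
    ∑ a, ∑ b, ind (P a) * ind (P' b) * tB D c a b =
      ∑ g, ind (g ∈ Gm D c) * ((∑ a, ind (P a ∧ C D g a)) * ∑ b, ind (P' b ∧ C D g b)) := by
  unfold tB
  simp only [Finset.mul_sum, Finset.sum_mul]
  rw [Finset.sum_congr rfl fun a _ => Finset.sum_comm, Finset.sum_comm]
  refine Finset.sum_congr rfl fun s _ => ?_
  rw [Finset.sum_comm]
  refine Finset.sum_congr rfl fun b _ => Finset.sum_congr rfl fun a _ => ?_
  simp only [ind_and]; ring

namespace TG

variable {c : Q} (X : TG D c)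

include X

theorem t1 [Fintype V] {x y y' : V} (hx : Sg D c x) (hy : Sx D c x y) (hy' : Sx D c x y') :
    ∑ a, ∑ b, ind (a + y ∈ Gm D c) * ind (b + y' ∈ Gm D c) * tT D c x a b =
      ∑ s, ind (s + x ∈ Gm D c) * (cM D c s * cM D c s) := by
  rw [tT_sum]
  refine Finset.sum_congr rfl fun s _ => ?_
  by_cases hs : s + x ∈ Gm D c
  · rw [X.b6 hx hy hs, X.b6 hx hy' hs]
  · rw [ind_false hs, zero_mul, zero_mul]

theorem t2 [Fintype V] {y y' : V} (hy : Sg D c y) (hy' : Sg D c y') :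
    ∑ a, ∑ b, ind (a + y ∈ Gm D c) * ind (b + y' ∈ Gm D c) * tB D c a b =
      ∑ g, ind (g ∈ Gm D c) * (cM D c g * cM D c g) := by
  rw [tB_sum]
  refine Finset.sum_congr rfl fun g _ => ?_
  by_cases hg : g ∈ Gm D c
  · rw [X.b7 hy hg, X.b7 hy' hg]
  · rw [ind_false hg, zero_mul, zero_mul]

/-- **(YL)** two elements of `S ∩ (S + x)` have a common neighbour in `x + Stab` -/
theorem yl [Fintype V] {x y y' : V} (hx : Sg D c x) (hy : Sx D c x y) (hy' : Sx D c x y') :
    ∃ s, s + x ∈ Gm D c ∧ D.q s y = c ∧ D.q s y' = c := by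
  -- the blocks `y + Stab`, `y + x + Stab`
  have hyx : Sx D c x (y + x) := ⟨hy.2, by
    rw [show y + x + x = y from eo (by
      abel_nf <;> simp only [ch2, ch3, ch4, add_zero, zero_add])]
    exact hy.1⟩
  have e1 : ∑ s, ind (s + x ∈ Gm D c) * (cM D c s * cM D c s) =
      ∑ g, ind (g ∈ Gm D c) * (cM D c g * cM D c g) := by
    rw [← X.t1 hx hy hyx, ← X.t2 hy.1 hyx.1]
    refine Finset.sum_congr rfl fun a _ => Finset.sum_congr rfl fun b _ => ?_
    by_cases ha : a + y ∈ Gm D c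
    · by_cases hb : b + (y + x) ∈ Gm D c
      · congr 1
        obtain ⟨r, h1, h2⟩ := (a2 hy.1 ha).common (a2 hyx.1 hb)
        have h3 : a + b + x ∈ Gm D c := by
          have := (Gm D c).add_mem ha hb
          rwa [show a + y + (b + (y + x)) = a + b + x from eo (by
            abel_nf <;> simp only [ch2, ch3, ch4, add_zero, zero_add])] at this
        have h4 : C D (a + b) r := q_eq'_iff.1 (h1.trans h2.symm)
        have h5 : a + b + r ∈ Gm D c := X.st _ _ (a2 hx h3) (Sg.right h1) h4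
        have h6 : r + x ∈ Gm D c := by
          have := (Gm D c).add_mem h3 h5
          rwa [show a + b + x + (a + b + r) = r + x from eo (by
            abel_nf <;> simp only [ch2, ch3, ch4, add_zero, zero_add])] at this
        exact tT_eq h6 (by rw [D.symm, h1]) (by rw [D.symm, h2])
      · rw [ind_false hb, mul_zero, zero_mul, zero_mul]
    · rw [ind_false ha, zero_mul, zero_mul, zero_mul]
  have e2 : ∑ a, ∑ b, ind (a + y ∈ Gm D c) * ind (b + y' ∈ Gm D c) * tT D c x a b =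
      ∑ a, ∑ b, ind (a + y ∈ Gm D c) * ind (b + y' ∈ Gm D c) * tB D c a b := by
    rw [X.t1 hx hy hy', X.t2 hy.1 hy'.1, e1]
  have hle : ∀ a b, ind (a + y ∈ Gm D c) * ind (b + y' ∈ Gm D c) * tT D c x a b ≤
      ind (a + y ∈ Gm D c) * ind (b + y' ∈ Gm D c) * tB D c a b := fun a b =>
    mul_le_mul_of_nonneg_left (tT_le c x a b) (mul_nonneg (ind_nonneg _) (ind_nonneg _))
  have e3 := (Finset.sum_eq_sum_iff_of_le fun a _ => Finset.sum_le_sum fun b _ => hle a b).1 e2 y
    (Finset.mem_univ _)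
  have e4 := (Finset.sum_eq_sum_iff_of_le fun b _ => hle y b).1 e3 y' (Finset.mem_univ _)
  rw [ZModModule.add_self, ZModModule.add_self, ind_true (Submodule.zero_mem _), one_mul, one_mul,
    one_mul] at e4
  have e5 := tB_pos (D := D) c y y'
  rw [← e4] at e5
  exact exists_of_sum_pos e5

/-- **(3)** `∑_{w ∈ x + Stab} |V_w| ^ 2 = ∑_{g ∈ Stab} |G_g| ^ 2` -/
theorem e2 [Fintype V] {x : V} (hx : Sg D c x) :
    ∑ w, ind (w + x ∈ Gm D c) * (cG D c x w * cG D c x w) =
      ∑ g, ind (g ∈ Gm D c) * (cG D c x g * cG D c x g) := by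
  have h1 := tT_sum (D := D) c x (fun a => Sx D c x a) (fun a => Sx D c x a)
  have h2 := tB_sum (D := D) c (fun a => Sx D c x a) (fun a => Sx D c x a)
  have h3 : ∑ a, ∑ b, ind (Sx D c x a) * ind (Sx D c x b) * tT D c x a b =
      ∑ a, ∑ b, ind (Sx D c x a) * ind (Sx D c x b) * tB D c a b := by
    refine Finset.sum_congr rfl fun a _ => Finset.sum_congr rfl fun b _ => ?_
    by_cases ha : Sx D c x a
    · by_cases hb : Sx D c x b
      · obtain ⟨s, g1, g2, g3⟩ := X.yl hx ha hb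
        rw [tT_eq g1 g2 g3]
      · rw [ind_false hb, mul_zero, zero_mul, zero_mul]
    · rw [ind_false ha, zero_mul, zero_mul, zero_mul]
  rw [h1, h2] at h3
  have h4 : ∀ s, ind (s + x ∈ Gm D c) * ((∑ a, ind (Sx D c x a ∧ D.q s a = c)) *
      ∑ b, ind (Sx D c x b ∧ D.q s b = c)) =
      ind (s + x ∈ Gm D c) * (cG D c x s * cG D c x s) := by
    intro s
    by_cases hs : s + x ∈ Gm D c
    · rw [X.b1 hx hs]
    · rw [ind_false hs, zero_mul, zero_mul]
  have h5 : ∀ g, ind (g ∈ Gm D c) * ((∑ a, ind (Sx D c x a ∧ C D g a)) *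
      ∑ b, ind (Sx D c x b ∧ C D g b)) = ind (g ∈ Gm D c) * (cG D c x g * cG D c x g) := by
    intro g
    by_cases hg : g ∈ Gm D c
    · rw [X.b4 hx hg]
    · rw [ind_false hg, zero_mul, zero_mul]
  rw [Finset.sum_congr rfl fun s _ => h4 s, Finset.sum_congr rfl fun g _ => h5 g] at h3
  exact h3

end TG

end Pool.Agent.ETPG
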