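import Pool.Agent.ETPG.G2

/-!
THEOREM G (note 2680, helper38), step (4) and the conclusion.
-/

set_option autoImplicit false
set_option linter.unusedSimpArgs false
set_option linter.unnecessarySeqFocus false
set_option linter.unusedSectionVars false

namespace Pool.Agent.ETPG

open Pool.Agent.Helper58.PLine (QData)
open Pool.Agent.ETCP
open Pool.Agent.ETPF
open ETC (ind ind_true ind_false ind_and ind_congr ind_nonneg ind_le sum_ind_shift sg zm)

variable {V Q : Type} [AddCommGroup V] [Module (ZMod 2) V] {D : QData V Q}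

theorem sum_zm (f : ZMod 2 → ℤ) : ∑ b, f b = f 0 + f 1 := Fin.sum_univ_two f

open Classical in
theorem sum_sub [Fintype V] (A : Submodule (ZMod 2) V) [Fintype A] (f : V → ℤ) :
    ∑ g, ind (g ∈ A) * f g = ∑ g : A, f (g : V) := by
  have h1 : ∑ a ∈ Finset.univ.filter (fun g : V => g ∈ A), f a = ∑ g : A, f (g : V) :=
    Finset.sum_subtype _ (by simp) f
  rw [Finset.sum_filter] at h1
  rw [← h1]
  refine Finset.sum_congr rfl fun g _ => ?_
  by_cases hg : g ∈ A
  · rw [ind_true hg, one_mul, if_pos hg]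
  · rw [ind_false hg, zero_mul, if_neg hg]

namespace TG

variable {c : Q} (X : TG D c)

include X

/-- the plane `⟨a, s⟩`, `s ∈ x + Stab`, is linked through `G_x` -/
theorem prod_id [Fintype V] {x s : V} (hx : Sg D c x) (hs : s + x ∈ Gm D c) (a : V) :
    cG D c x a * cG D c x (a + s) =
      (∑ h, ind (h ∈ Gx D c x ∧ C D a h ∧ C D s h)) *
      ∑ k, ind (k ∈ Gx D c x ∧ ∃ h ∈ Gx D c x, D.q a k = D.q s h) := by
  have h1 : ∀ k, ∑ h, ind ((k + h ∈ Gx D c x ∧ C D a (k + h)) ∧
      (h ∈ Gx D c x ∧ C D (a + s) h)) =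
      (∑ h, ind (h ∈ Gx D c x ∧ C D a h ∧ C D s h)) *
        ind (k ∈ Gx D c x ∧ ∃ h ∈ Gx D c x, D.q a k = D.q s h) := by
    intro k
    by_cases hk : k ∈ Gx D c x ∧ ∃ h ∈ Gx D c x, D.q a k = D.q s h
    · rw [ind_true hk, mul_one]
      obtain ⟨hk, h', h2, h3⟩ := hk
      obtain ⟨r, h4, h5⟩ := D.link a k s h' h3
      have h6 : r ∈ Gx D c x := by
        have h7 : C D s (h' + r) := q_eq_iff.1 h5
        have h8 := (Gx D c x).add_mem h2 (X.ann_sub hx hs h7)
        rwa [show h' + (h' + r) = r from eo (by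
          abel_nf <;> simp only [ch2, ch3, ch4, add_zero, zero_add])] at h8
      have h7 : C D a (k + r) := q_eq_iff.1 h4
      have h8 : C D (a + s) r := q_eq'_iff.1 (by rw [← h4, h3, h5])
      refine sum_ind_shift _ _ r fun v => ?_
      have e : k + (v + r) = v + (k + r) := by abel
      rw [e, mem_shift' ((Gx D c x).add_mem hk h6), mem_shift' h6, C_shift h7, C_shift h8]
      constructor
      · rintro ⟨⟨g1, g2⟩, -, g3⟩
        refine ⟨g1, g2, ?_⟩
        exact (g3.add' g2).of_eq (eo (by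
          abel_nf <;> simp only [ch2, ch3, ch4, add_zero, zero_add])) rfl
      · rintro ⟨g1, g2, g3⟩
        exact ⟨⟨g1, g2⟩, g1, g2.add' g3⟩
    · rw [ind_false hk, mul_zero]
      refine sum_ind_zero fun h hh => hk ?_
      obtain ⟨⟨g1, g2⟩, g3, g4⟩ := hh
      refine ⟨?_, h, g3, ?_⟩
      · have := (Gx D c x).add_mem g1 g3
        rwa [show k + h + h = k from eo (by
          abel_nf <;> simp only [ch2, ch3, ch4, add_zero, zero_add])] at this
      · exact (q_eq g2).trans (q_eq' g4)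
  calc cG D c x a * cG D c x (a + s)
      = ∑ h, ∑ k, ind (h ∈ Gx D c x ∧ C D (a + s) h) * ind (k ∈ Gx D c x ∧ C D a k) := by
        unfold cG
        rw [Finset.sum_mul, Finset.sum_comm]
        refine Finset.sum_congr rfl fun k _ => ?_
        rw [Finset.mul_sum]
        refine Finset.sum_congr rfl fun h _ => ?_
        ring
    _ = ∑ h, ∑ k, ind (h ∈ Gx D c x ∧ C D (a + s) h) *
          ind (k + h ∈ Gx D c x ∧ C D a (k + h)) := by
        refine Finset.sum_congr rfl fun h _ => ?_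
        exact (Equiv.sum_comp (Equiv.addRight h) (fun k => ind (h ∈ Gx D c x ∧ C D (a + s) h) *
          ind (k ∈ Gx D c x ∧ C D a k))).symm
    _ = ∑ k, ∑ h, ind ((k + h ∈ Gx D c x ∧ C D a (k + h)) ∧
          (h ∈ Gx D c x ∧ C D (a + s) h)) := by
        rw [Finset.sum_comm]
        refine Finset.sum_congr rfl fun k _ => Finset.sum_congr rfl fun h _ => ?_
        simp only [ind_and]; ring
    _ = _ := by
        rw [Finset.mul_sum]
        exact Finset.sum_congr rfl fun k _ => h1 k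

/-- **THEOREM G** (note 2680, helper38): some `x0 ∈ x + Stab` has `V_{x0} = G_x`, where
`S ∩ (S + x) = y + G_x` -/
theorem exists_base [Finite V] {x : V} (hx : Sg D c x) :
    ∃ x0, x0 + x ∈ Gm D c ∧ ∀ h, h ∈ Gx D c x → C D x0 h := by
  have := Fintype.ofFinite V
  let ι : Gm D c × ZMod 2 → V := fun u => (u.1 : V) + u.2 • x
  have hι : ∀ u v, ι (u + v) = ι u + ι v := by
    intro u v
    change ((u.1 + v.1 : Gm D c) : V) + (u.2 + v.2) • x = _
    rw [Submodule.coe_add, add_smul]
    change _ = (u.1 : V) + u.2 • x + ((v.1 : V) + v.2 • x)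
    abel
  have hι1 : ∀ u : Gm D c × ZMod 2, u.2 = 1 → ι u + x ∈ Gm D c := by
    intro u hu
    change (u.1 : V) + u.2 • x + x ∈ _
    rw [hu, one_smul, add_assoc, ZModModule.add_self, add_zero]
    exact u.1.2
  let F : Gm D c × ZMod 2 → ℤ := fun u => cG D c x (ι u)
  have ι0 : ι 0 = 0 := by
    change ((0 : Gm D c) : V) + (0 : ZMod 2) • x = 0
    rw [zero_smul, add_zero]; rfl
  have hsum : ∀ [Fintype (Gm D c × ZMod 2)] (f : V → ℤ),
      ∑ u : Gm D c × ZMod 2, f (ι u) * sg ((LinearMap.snd (ZMod 2) (Gm D c) (ZMod 2)) u) =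
      ∑ g, ind (g ∈ Gm D c) * f g - ∑ w, ind (w + x ∈ Gm D c) * f w := by
    intro inst f
    classical
    have i1 : Fintype (Gm D c) := Fintype.ofFinite _
    have : inst = instFintypeProd _ _ := Subsingleton.elim _ _
    subst this
    have e1 : ∑ w, ind (w + x ∈ Gm D c) * f w = ∑ g, ind (g ∈ Gm D c) * f (g + x) := by
      rw [← Equiv.sum_comp (Equiv.addRight x) (fun w => ind (w + x ∈ Gm D c) * f w)]
      refine Finset.sum_congr rfl fun g _ => ?_
      simp only [Equiv.coe_addRight]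
      rw [show g + x + x = g from by rw [add_assoc, ZModModule.add_self, add_zero]]
    rw [Fintype.sum_prod_type, e1, sum_sub, sum_sub (Gm D c) (fun g => f (g + x)),
      ← Finset.sum_sub_distrib]
    refine Finset.sum_congr rfl fun g _ => ?_
    rw [sum_zm]
    have e2 : ι (g, 0) = g := by
      change (g : V) + (0 : ZMod 2) • x = g
      rw [zero_smul, add_zero]
    have e3 : ι (g, 1) = g + x := by
      change (g : V) + (1 : ZMod 2) • x = g + x
      rw [one_smul]
    rw [e2, e3]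
    change f g * sg 0 + f (g + x) * sg 1 = _
    rw [ETC.sg_zero, ETC.sg_one]; ring
  have key : ∃ u : Gm D c × ZMod 2, (LinearMap.snd (ZMod 2) (Gm D c) (ZMod 2)) u = 1 ∧
      F u = F 0 := by
    refine exists_eq ?_ ?_ ?_ ?_ ?_
    · change 0 < cG D c x (ι 0)
      rw [ι0]
      exact sum_ind_pos (v := (0 : V)) ⟨Submodule.zero_mem _, C.zero 0⟩
    · intro inst b
      change 0 ≤ ∑ u, cG D c x (ι u) * sg (b u)
      unfold cG
      simp only [Finset.sum_mul]
      rw [Finset.sum_comm]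
      refine Finset.sum_nonneg fun h _ => ?_
      refine pd_ind (fun u => h ∈ Gx D c x ∧ C D (ι u) h) (fun u v hu hv => ⟨hu.1, ?_⟩) b
      rw [hι]
      exact hu.2.add' hv.2
    · intro inst s θ hs
      change 0 ≤ ∑ u, cG D c x (ι u) * cG D c x (ι (u + s)) * sg (θ u)
      have hs' : ι s + x ∈ Gm D c := hι1 s hs
      have e1 : ∀ u, cG D c x (ι u) * cG D c x (ι (u + s)) * sg (θ u) =
          ∑ h, ∑ k, ind ((h ∈ Gx D c x ∧ C D (ι u) h ∧ C D (ι s) h) ∧
            (k ∈ Gx D c x ∧ ∃ h ∈ Gx D c x, D.q (ι u) k = D.q (ι s) h)) * sg (θ u) := by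
        intro u
        rw [hι, X.prod_id hx hs', Finset.sum_mul_sum, Finset.sum_mul]
        refine Finset.sum_congr rfl fun h _ => ?_
        rw [Finset.sum_mul]
        refine Finset.sum_congr rfl fun k _ => ?_
        rw [ind_and (_ ∧ _) (_ ∧ _)]
      rw [Finset.sum_congr rfl fun u _ => e1 u, Finset.sum_comm]
      refine Finset.sum_nonneg fun h _ => ?_
      rw [Finset.sum_comm]
      refine Finset.sum_nonneg fun k _ => ?_
      refine pd_ind (fun u => (h ∈ Gx D c x ∧ C D (ι u) h ∧ C D (ι s) h) ∧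
            (k ∈ Gx D c x ∧ ∃ h ∈ Gx D c x, D.q (ι u) k = D.q (ι s) h)) ?_ θ
      rintro u v ⟨⟨g1, g2, g3⟩, g4, h1, g5, g6⟩ ⟨⟨-, g7, -⟩, -, h2, g8, g9⟩
      refine ⟨⟨g1, ?_, g3⟩, g4, h1 + h2, (Gx D c x).add_mem g5 g8, ?_⟩
      · rw [hι]; exact g2.add' g7
      · rw [hι, D.symm]
        exact ETC.add_common ((D.symm _ _).trans g6) ((D.symm _ _).trans g9)
    · intro inst
      have := hsum (cG D c x)
      rw [X.e0 hx, sub_self] at this
      exact this
    · intro inst
      have := hsum (fun v => cG D c x v * cG D c x v)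
      rw [X.e2 hx, sub_self] at this
      exact this
  obtain ⟨u, hu1, hu2⟩ := key
  refine ⟨ι u, hι1 u hu1, fun h hh => ?_⟩
  have h1 : cG D c x (ι u) = cG D c x 0 := by
    have := hu2
    change cG D c x (ι u) = cG D c x (ι 0) at this
    rwa [ι0] at this
  have h2 := (Finset.sum_eq_sum_iff_of_le (s := Finset.univ)
    (f := fun h => ind (h ∈ Gx D c x ∧ C D (ι u) h))
    (g := fun h => ind (h ∈ Gx D c x ∧ C D 0 h)) fun h _ =>
      ind_le fun hh => ⟨hh.1, C.zero' h⟩).1 h1 h (Finset.mem_univ _)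
  by_contra hcon
  rw [ind_false fun hh => hcon hh.2, ind_true ⟨hh, C.zero' h⟩] at h2
  exact zero_ne_one h2

end TG

end Pool.Agent.ETPG
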